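import Pool.Agent.W109.C.S1
import Pool.Agent.N900.WS.Grid

/-!
The weighted sums of the maxima over all heights and over the residues inside, over any set of few
residues outside few pairs (modulus, residue): all moduli up to `N^α`, `α < 14/27`, and factorable
squarefree moduli up to `N^θ`, `θ < 5/9`.
-/

set_option autoImplicit false

namespace Pool.Agent.K9h59.MI

open Finset
open Pool.Agent.H442R2.KF
open Pool.Agent.H442R2.FX
open Pool.Agent.W109.C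
open Pool.Agent.H300R2.WEH (errMax JJ gp JJ_facts gp_facts errMax_nonneg errMax_triv)

/-- moduli up to `N^α`, and factorable ones -/
def PG (α θ δ : ℝ) (N d : ℕ) : Prop := (d : ℝ) ≤ (N : ℝ) ^ α ∨ FacD N θ δ d

theorem hcorr_PG (α θ δ : ℝ) (hα : α < 14 / 27) (h1 : 1 / 2 ≤ θ) (h2 : θ < 5 / 9) (h3 : 0 < δ) :
    HCorr θ (PG α θ δ) := by
  obtain ⟨η₁, C₁, hη₁, hC₁, hc1⟩ := corr2 α hα
  obtain ⟨η₂, C₂, hη₂, hC₂, hc2⟩ := CF (BF (EF WF)) θ δ h1 h2 h3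
  refine ⟨min η₁ η₂, C₁ + C₂, lt_min hη₁ hη₂, by positivity, ?_⟩
  intro N D hN hQD hD a a' ha haN ha' haN' hne c c' hc hc' hP hP'
  have hN1 : (1 : ℝ) ≤ N := by exact_mod_cast (by omega : 1 ≤ N)
  rcases le_or_gt (D : ℝ) ((N : ℝ) ^ α) with hDs | hDs
  · refine (hc1 N D hN hQD hDs a a' ha haN ha' haN' hne c c' hc hc').trans ?_
    have h4 : (N : ℝ) ^ (1 - η₁) ≤ (N : ℝ) ^ (1 - min η₁ η₂) :=
      Real.rpow_le_rpow_of_exponent_le hN1 (by linarith [min_le_left η₁ η₂])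
    have h5 : 0 ≤ (N : ℝ) ^ (1 - min η₁ η₂) := by positivity
    calc C₁ * (N : ℝ) ^ (1 - η₁) ≤ C₁ * (N : ℝ) ^ (1 - min η₁ η₂) := by gcongr
      _ ≤ _ := by nlinarith
  · have hfac : ∀ c : ℕ → ℝ, Cof D c → (∀ d, c d ≠ 0 → PG α θ δ N d) →
        ∀ d, c d ≠ 0 → FacD N θ δ d := by
      intro c hc hP d hd
      rcases hP d hd with h | h
      · exfalso
        have h6 : d ∈ Ioc D (2 * D) := by
          by_contra hcon
          exact hd (hc.supp d hcon)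
        rw [mem_Ioc] at h6
        have h7 : (D : ℝ) < d := by exact_mod_cast h6.1
        linarith
      · exact h
    refine (hc2 N D hN hQD hD a a' ha haN ha' haN' hne c c' hc hc' (hfac c hc hP)
      (hfac c' hc' hP')).trans ?_
    have h4 : (N : ℝ) ^ (1 - η₂) ≤ (N : ℝ) ^ (1 - min η₁ η₂) :=
      Real.rpow_le_rpow_of_exponent_le hN1 (by linarith [min_le_right η₁ η₂])
    have h5 : 0 ≤ (N : ℝ) ^ (1 - min η₁ η₂) := by positivity
    calc C₂ * (N : ℝ) ^ (1 - η₂) ≤ C₂ * (N : ℝ) ^ (1 - min η₁ η₂) := by gcongr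
      _ ≤ _ := by nlinarith

/-- comparison of powers at two heights -/
lemma low {N y ε t t' : ℝ} (hN : 1 ≤ N) (hy : N ^ (1 - ε) ≤ y) (ht' : 0 ≤ t')
    (h : t ≤ (1 - ε) * t') : N ^ t ≤ y ^ t' := by
  have hN0 : 0 < N := by linarith
  calc N ^ t ≤ N ^ ((1 - ε) * t') := Real.rpow_le_rpow_of_exponent_le hN h
    _ = (N ^ (1 - ε)) ^ t' := by rw [Real.rpow_mul hN0.le]
    _ ≤ y ^ t' := Real.rpow_le_rpow (by positivity) hy ht'

/-- smooth numbers are factorable or small -/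
lemma smooth_PG (α θ δ : ℝ) (hα : 2 * θ - 1 + δ ≤ α) (h1 : 1 / 2 ≤ θ) (h3 : 0 < δ) (N d : ℕ)
    (hN : 2 ≤ N) (hsq : Squarefree d)
    (hsm : ∀ p : ℕ, p.Prime → p ∣ d → (p : ℝ) ≤ (N : ℝ) ^ (5 - 9 * θ - 2 * δ)) :
    PG α θ δ N d := by
  have hN1 : (1 : ℝ) ≤ N := by exact_mod_cast (by omega : 1 ≤ N)
  have hN0 : (0 : ℝ) < N := by linarith
  rcases lt_or_ge (5 - 9 * θ - 2 * δ) 0 with hneg | hpos
  · left
    have hd : d = 1 := by
      by_contra hne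
      obtain ⟨p, hp, hpd⟩ := Nat.exists_prime_and_dvd hne
      have h4 := hsm p hp hpd
      have h5 : (N : ℝ) ^ (5 - 9 * θ - 2 * δ) ≤ 1 :=
        Real.rpow_le_one_of_one_le_of_nonpos hN1 hneg.le
      have h6 : (2 : ℝ) ≤ p := by exact_mod_cast hp.two_le
      linarith
    rw [hd]
    push_cast
    exact Real.one_le_rpow hN1 (by linarith)
  · obtain ⟨lo, hlo⟩ : ∃ lo : ℝ, lo = (N : ℝ) ^ (2 * θ - 1 + δ) := ⟨_, rfl⟩
    have hlo1 : 1 ≤ lo := by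
      rw [hlo]
      exact Real.one_le_rpow hN1 (by linarith)
    rcases lt_or_ge (d : ℝ) lo with h | h
    · left
      refine h.le.trans ?_
      rw [hlo]
      exact Real.rpow_le_rpow_of_exponent_le hN1 (by linarith)
    · right
      obtain ⟨s, hs1, hs2, hs3⟩ := GR d lo ((N : ℝ) ^ (5 - 9 * θ - 2 * δ)) hlo1 h
        (Real.one_le_rpow hN1 hpos) hsm
      refine ⟨hsq, s, hs1, by rw [← hlo]; exact hs2, ?_⟩
      refine hs3.trans (le_of_eq ?_)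
      rw [hlo, ← Real.rpow_add hN0]
      congr 1
      ring

lemma fac_transfer {N y : ℕ} {θ δ δ₁ ε : ℝ} (hN : (1 : ℝ) ≤ N) (hyN : (y : ℝ) ≤ N)
    (hy0 : (0 : ℝ) < y) (hy : (N : ℝ) ^ (1 - ε) ≤ y) (h1 : 1 / 2 ≤ θ)
    (d1 : δ₁ ≤ δ) (d2 : δ₁ ≤ 5 / 9 - θ) (d3 : 0 < δ₁) (e1 : ε ≤ δ₁ / 64) (e0 : 0 < ε) {d : ℕ}
    (h : FacD N θ δ d) : FacD y (θ + δ₁ / 32) (δ₁ / 2) d := by
  obtain ⟨hsq, s, hs, hs1, hs2⟩ := h
  refine ⟨hsq, s, hs, ?_, ?_⟩
  · calc (y : ℝ) ^ (2 * (θ + δ₁ / 32) - 1 + δ₁ / 2)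
        ≤ (N : ℝ) ^ (2 * (θ + δ₁ / 32) - 1 + δ₁ / 2) :=
          Real.rpow_le_rpow hy0.le hyN (by linarith)
      _ ≤ (N : ℝ) ^ (2 * θ - 1 + δ) :=
          Real.rpow_le_rpow_of_exponent_le hN (by linarith)
      _ ≤ s := hs1
  · refine hs2.trans (low hN hy (by linarith) ?_)
    have h2 : 4 - 7 * (θ + δ₁ / 32) - δ₁ / 2 ≤ 1 / 2 := by linarith
    have h3 : ε * (4 - 7 * (θ + δ₁ / 32) - δ₁ / 2) ≤ ε * (1 / 2) :=
      mul_le_mul_of_nonneg_left h2 e0.le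
    nlinarith

/-- **weighted sums, the maximum over the residues inside** -/
theorem main (α θ δ : ℝ) (hα : α < 14 / 27) (h1 : 1 / 2 ≤ θ) (h2 : θ < 5 / 9) (h3 : 0 < δ) :
    ∃ η : ℝ, 0 < η ∧ ∀ κ : ℝ, 1 ≤ κ → ∀ U : ℕ, ∃ (B : ℕ) (C : ℝ), 0 < C ∧ ∀ N : ℕ, 3 ≤ N →
    ∀ A : Finset ℕ, (∀ a ∈ A, 1 ≤ a ∧ (a : ℝ) * Real.log N ^ B ≤ N) →
    (A.card : ℝ) ≤ (N : ℝ) ^ η →
    ∃ X : ℕ → Finset ℕ, (∀ d, X d ⊆ A) ∧
    ∑ d ∈ Icc 1 ⌊(N : ℝ) ^ θ⌋₊, ((X d).card : ℝ) / (Nat.totient d : ℝ) ≤ C * Real.log N ^ B ∧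
    ∀ l : ℕ → ℕ, ∑ d ∈ (mo (PG α θ δ) N θ).filter
        (fun d => l d ∈ A ∧ l d ∉ X d ∧ Nat.Coprime (l d) d),
      κ ^ d.primeFactors.card * errMax N d (l d) ≤ N / Real.log N ^ U := by
  classical
  -- parameters
  obtain ⟨δ₁, hδ₁⟩ : ∃ δ₁ : ℝ, δ₁ = min δ (5 / 9 - θ) := ⟨_, rfl⟩
  have d1 : δ₁ ≤ δ := by rw [hδ₁]; exact min_le_left _ _
  have d2 : δ₁ ≤ 5 / 9 - θ := by rw [hδ₁]; exact min_le_right _ _
  have d3 : 0 < δ₁ := by rw [hδ₁]; exact lt_min h3 (by linarith)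
  obtain ⟨α₀, hα₀⟩ : ∃ α₀ : ℝ, α₀ = max α (1 / 2) := ⟨_, rfl⟩
  have a1 : α ≤ α₀ := by rw [hα₀]; exact le_max_left _ _
  have a2 : 1 / 2 ≤ α₀ := by rw [hα₀]; exact le_max_right _ _
  have a3 : α₀ < 14 / 27 := by rw [hα₀]; exact max_lt hα (by norm_num)
  obtain ⟨α', hα'⟩ : ∃ α' : ℝ, α' = (α₀ + 14 / 27) / 2 := ⟨_, rfl⟩
  obtain ⟨ε, hε⟩ : ∃ ε : ℝ, ε = min (δ₁ / 64) ((14 / 27 - α₀) / 2) := ⟨_, rfl⟩
  have e1 : ε ≤ δ₁ / 64 := by rw [hε]; exact min_le_left _ _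
  have e2 : ε ≤ (14 / 27 - α₀) / 2 := by rw [hε]; exact min_le_right _ _
  have e3 : 0 < ε := by rw [hε]; exact lt_min (by linarith) (by linarith)
  obtain ⟨η', hη', hgen⟩ := main_gen (θ + δ₁ / 32) (by linarith)
    (PG α' (θ + δ₁ / 32) (δ₁ / 2))
    (hcorr_PG α' (θ + δ₁ / 32) (δ₁ / 2) (by linarith) (by linarith) (by linarith) (by linarith))
  refine ⟨η' / 2, by positivity, fun κ hκ U => ?_⟩
  obtain ⟨U', K, Ng, hgrid⟩ := Pool.Agent.N900.WS.grid κ hκ U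
  obtain ⟨B1, C1, hC1, hmain⟩ := hgen (U' + 1)
  obtain ⟨N2, hgp⟩ := gp_facts K
  have ev1 := Pool.Agent.H442R2.EHI.FinalOf.ev K ε e3 4 (by norm_num)
  have ev2 : ∀ᶠ X : ℝ in Filter.atTop, (4 + 2 * C1 : ℝ) ≤ Real.log X :=
    Real.tendsto_log_atTop.eventually (Filter.eventually_ge_atTop _)
  have ev3 : ∀ᶠ X : ℝ in Filter.atTop, (9 : ℝ) ≤ X := Filter.eventually_ge_atTop _
  obtain ⟨Y, hY⟩ := Filter.eventually_atTop.mp (ev1.and (ev2.and ev3))
  obtain ⟨N0, hN0⟩ : ∃ N0 : ℕ, N0 = max (max Ng N2) ⌈Y⌉₊ := ⟨_, rfl⟩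
  refine ⟨K + B1 + 1, 2 * C1 + (N0 : ℝ) ^ 2, by positivity, fun N hN A hA hAc => ?_⟩
  have hl1 := TaskR2b.one_le_log hN
  have hl0 : 0 < Real.log N := by linarith
  have hNr : (3 : ℝ) ≤ N := by exact_mod_cast hN
  have hNr1 : (1 : ℝ) ≤ N := by linarith
  have hNr0 : (0 : ℝ) < N := by linarith
  have hMN : ⌊(N : ℝ) ^ θ⌋₊ ≤ N := by
    apply Nat.floor_le_of_le
    calc (N : ℝ) ^ θ ≤ (N : ℝ) ^ (1 : ℝ) :=
          Real.rpow_le_rpow_of_exponent_le hNr1 (by linarith)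
      _ = N := Real.rpow_one _
  rcases lt_or_ge N N0 with hlt | hge
  · -- small `N`
    refine ⟨fun _ => A, fun _ => Subset.rfl, ?_, fun l => ?_⟩
    · have hAN : (A.card : ℝ) ≤ N := by
        have h4 : A ⊆ Icc 1 N := by
          intro a ha
          obtain ⟨g1, g2⟩ := hA a ha
          rw [mem_Icc]
          refine ⟨g1, ?_⟩
          have h5 : (a : ℝ) ≤ N := by
            refine le_trans ?_ g2
            exact le_mul_of_one_le_right (Nat.cast_nonneg _) (one_le_pow₀ hl1)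
          exact_mod_cast h5
        have h5 := card_le_card h4
        rw [Nat.card_Icc, Nat.add_sub_cancel] at h5
        exact_mod_cast h5
      have hN0r : (N : ℝ) ≤ N0 := by exact_mod_cast hlt.le
      calc ∑ d ∈ Icc 1 ⌊(N : ℝ) ^ θ⌋₊, (A.card : ℝ) / (Nat.totient d : ℝ)
          ≤ ∑ _d ∈ Icc 1 ⌊(N : ℝ) ^ θ⌋₊, (N : ℝ) := by
            refine sum_le_sum fun d hd => ?_
            have hd1 := (mem_Icc.1 hd).1
            have hφ : (1 : ℝ) ≤ Nat.totient d := by exact_mod_cast Nat.totient_pos.2 hd1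
            refine (div_le_self (Nat.cast_nonneg _) hφ).trans hAN
        _ = (⌊(N : ℝ) ^ θ⌋₊ : ℝ) * N := by
            rw [sum_const, Nat.card_Icc, Nat.add_sub_cancel, nsmul_eq_mul]
        _ ≤ N * N := by
            have : (⌊(N : ℝ) ^ θ⌋₊ : ℝ) ≤ N := by exact_mod_cast hMN
            gcongr
        _ ≤ N0 ^ 2 := by nlinarith
        _ ≤ (2 * C1 + (N0 : ℝ) ^ 2) * 1 := by nlinarith
        _ ≤ _ := by
            refine mul_le_mul_of_nonneg_left (one_le_pow₀ hl1) (by positivity)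
    · have h4 : (mo (PG α θ δ) N θ).filter
          (fun d => l d ∈ A ∧ l d ∉ A ∧ Nat.Coprime (l d) d) = ∅ := by
        rw [filter_eq_empty_iff]
        rintro d - ⟨g1, g2, -⟩
        exact g2 g1
      beta_reduce
      rw [h4, sum_empty]
      positivity
  · -- large `N`
    have hNg : Ng ≤ N := ((le_max_left _ _).trans (le_max_left _ _)).trans (hN0 ▸ hge)
    have hN2 : N2 ≤ N := ((le_max_right _ _).trans (le_max_left _ _)).trans (hN0 ▸ hge)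
    have hYN : ⌈Y⌉₊ ≤ N := (le_max_right _ _).trans (hN0 ▸ hge)
    obtain ⟨f1, f2, f3⟩ := hY N ((Nat.le_ceil Y).trans (by exact_mod_cast hYN))
    obtain ⟨L, hL⟩ : ∃ L : ℝ, L = Real.log N := ⟨_, rfl⟩
    have hL4 : 4 ≤ L := by rw [hL]; linarith
    obtain ⟨j1, j2, j3⟩ := JJ_facts K N hl1
    rw [← hL] at hl1 hl0 f1 f2 j2 j3
    have hLK : 0 < L ^ K := by positivity
    -- the heights
    have hy : ∀ j ∈ Icc 1 (JJ K N), (N : ℝ) / (4 * L ^ K) ≤ gp N (JJ K N) j ∧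
        gp N (JJ K N) j ≤ N ∧ (N : ℝ) ^ (1 - ε) ≤ gp N (JJ K N) j ∧
        3 ≤ gp N (JJ K N) j ∧ L / 2 ≤ Real.log (gp N (JJ K N) j) ∧
        Real.log (gp N (JJ K N) j) ≤ L ∧ (N : ℝ) ^ (1 / 2 : ℝ) ≤ gp N (JJ K N) j := by
      intro j hj
      obtain ⟨g1, g2⟩ := hgp N hN2 j hj
      rw [← hL] at g1
      have g3 : (N : ℝ) ^ (1 - ε) ≤ gp N (JJ K N) j := by
        refine le_trans ?_ g1
        rw [le_div_iff₀ (by positivity)]
        calc (N : ℝ) ^ (1 - ε) * (4 * L ^ K) ≤ (N : ℝ) ^ (1 - ε) * (N : ℝ) ^ ε := by gcongr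
          _ = N := by
              rw [← Real.rpow_add hNr0]
              simp
      have g4 : (N : ℝ) ^ (1 / 2 : ℝ) ≤ gp N (JJ K N) j := by
        refine le_trans ?_ g3
        exact Real.rpow_le_rpow_of_exponent_le hNr1 (by linarith)
      have g5 : (3 : ℝ) ≤ (N : ℝ) ^ (1 / 2 : ℝ) := by
        rw [← Real.sqrt_eq_rpow]
        exact Real.le_sqrt_of_sq_le (by linarith)
      have g6 : (3 : ℝ) ≤ gp N (JJ K N) j := g5.trans g4
      refine ⟨g1, g2, g3, by exact_mod_cast g6, ?_, ?_, g4⟩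
      · have h4 := Real.log_le_log (by positivity) g4
        rw [Real.log_rpow hNr0, ← hL] at h4
        linarith
      · rw [hL]
        exact Real.log_le_log (by linarith) (by exact_mod_cast g2)
    -- the exceptional pairs at the heights
    have hex : ∀ j, ∃ X : ℕ → Finset ℕ, j ∈ Icc 1 (JJ K N) → (∀ q, X q ⊆ A) ∧
        ∑ q ∈ Icc 1 ⌊(N : ℝ) ^ θ⌋₊, ((X q).card : ℝ) / (Nat.totient q : ℝ) ≤ C1 * L ^ B1 ∧
        (∀ l : ℕ → ℕ, ∑ q ∈ (mo (PG α θ δ) N θ).filter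
          (fun q => l q ∈ A ∧ l q ∉ X q ∧ Nat.Coprime (l q) q), |Er (gp N (JJ K N) j) q (l q)| ≤
            (gp N (JJ K N) j : ℝ) / Real.log (gp N (JJ K N) j) ^ U') := by
      intro j
      by_cases hj : j ∈ Icc 1 (JJ K N)
      swap
      · exact ⟨fun _ => ∅, fun h => absurd h hj⟩
      obtain ⟨g1, g2, g3, g4, g5, g6, g7⟩ := hy j hj
      obtain ⟨y, hyd⟩ : ∃ y, y = gp N (JJ K N) j := ⟨_, rfl⟩
      rw [← hyd] at g1 g2 g3 g4 g5 g6 g7 ⊢
      have gy3 : (3 : ℝ) ≤ y := by exact_mod_cast g4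
      have gy0 : (0 : ℝ) < y := by linarith
      have gy1 : (1 : ℝ) ≤ y := by linarith
      have gyN : (y : ℝ) ≤ N := by exact_mod_cast g2
      have glog : 0 < Real.log y := by linarith
      obtain ⟨Z, -, hZ⟩ := hmain y g4
      have hAy : A ⊆ Icc 1 y := by
        intro a ha
        obtain ⟨k1, k2⟩ := hA a ha
        rw [mem_Icc]
        refine ⟨k1, ?_⟩
        rw [← hL] at k2
        have k3 : (a : ℝ) * (4 * L ^ K) ≤ N := by
          refine le_trans ?_ k2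
          have k4 : L ^ (K + B1 + 1) = L ^ K * L ^ B1 * L := by ring
          have k5 : 1 ≤ L ^ B1 := one_le_pow₀ hl1
          have k6 : 4 * L ^ K ≤ L ^ (K + B1 + 1) := by
            rw [k4]
            calc 4 * L ^ K ≤ L * L ^ K := by gcongr
              _ = L ^ K * 1 * L := by ring
              _ ≤ L ^ K * L ^ B1 * L := by gcongr
          gcongr
        have k4 : (a : ℝ) ≤ y := by
          refine le_trans ?_ g1
          rw [le_div_iff₀ (by positivity)]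
          exact k3
        exact_mod_cast k4
      have hAyc : (A.card : ℝ) ≤ (y : ℝ) ^ η' := by
        refine hAc.trans ?_
        calc (N : ℝ) ^ (η' / 2) = ((N : ℝ) ^ (1 / 2 : ℝ)) ^ η' := by
              rw [← Real.rpow_mul hNr0.le]
              congr 1
              ring
          _ ≤ (y : ℝ) ^ η' := Real.rpow_le_rpow (by positivity) g7 hη'.le
      obtain ⟨X, hX0, hX1, -, hX3⟩ := hZ A hAy hAyc
      have hNy : (N : ℝ) ^ θ ≤ (y : ℝ) ^ (θ + δ₁ / 32) := by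
        apply low hNr1 g3 (by linarith)
        nlinarith
      have hsubI : Icc 1 ⌊(N : ℝ) ^ θ⌋₊ ⊆ Icc 1 ⌊(y : ℝ) ^ (θ + δ₁ / 32)⌋₊ :=
        Icc_subset_Icc_right (Nat.floor_le_floor hNy)
      have hsubm : ∀ q ∈ mo (PG α θ δ) N θ,
          q ∈ mo (PG α' (θ + δ₁ / 32) (δ₁ / 2)) y (θ + δ₁ / 32) := by
        intro q hq
        obtain ⟨k1, k2⟩ := mem_mo.1 hq
        refine mem_mo.2 ⟨hsubI k1, ?_⟩
        rcases k2 with k2 | k2
        · left
          refine k2.trans (low hNr1 g3 (by linarith) ?_)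
          nlinarith
        · right
          exact fac_transfer hNr1 gyN gy0 g3 h1 d1 d2 d3 e1 e3 k2
      refine ⟨X, fun _ => ⟨hX0, ?_, fun l => ?_⟩⟩
      · calc ∑ q ∈ Icc 1 ⌊(N : ℝ) ^ θ⌋₊, ((X q).card : ℝ) / (Nat.totient q : ℝ)
            ≤ ∑ q ∈ Icc 1 ⌊(y : ℝ) ^ (θ + δ₁ / 32)⌋₊, ((X q).card : ℝ) / (Nat.totient q : ℝ) :=
              sum_le_sum_of_subset_of_nonneg hsubI fun _ _ _ => by positivity
          _ ≤ C1 * Real.log y ^ B1 := hX1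
          _ ≤ C1 * L ^ B1 := by gcongr
      · calc ∑ q ∈ (mo (PG α θ δ) N θ).filter
              (fun q => l q ∈ A ∧ l q ∉ X q ∧ Nat.Coprime (l q) q), |Er y q (l q)|
            ≤ ∑ q ∈ (mo (PG α' (θ + δ₁ / 32) (δ₁ / 2)) y (θ + δ₁ / 32)).filter
              (fun q => l q ∈ A ∧ l q ∉ X q ∧ Nat.Coprime (l q) q), |Er y q (l q)| := by
              refine sum_le_sum_of_subset_of_nonneg ?_ fun _ _ _ => abs_nonneg _
              intro q hq
              rw [mem_filter] at hq ⊢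
              exact ⟨hsubm q hq.1, hq.2⟩
          _ ≤ C1 * (y / Real.log y ^ (U' + 1)) := hX3 l
          _ ≤ y / Real.log y ^ U' := by
              rw [pow_succ, ← div_div, mul_div_assoc', div_le_iff₀ glog, mul_comm]
              have : C1 ≤ Real.log y := by linarith
              gcongr
    choose X hX using hex
    refine ⟨fun d => (Icc 1 (JJ K N)).biUnion (fun j => X j d), ?_, ?_, fun l => ?_⟩
    · intro d
      rw [biUnion_subset]
      exact fun j hj => (hX j hj).1 d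
    · calc ∑ d ∈ Icc 1 ⌊(N : ℝ) ^ θ⌋₊,
            (((Icc 1 (JJ K N)).biUnion (fun j => X j d)).card : ℝ) / (Nat.totient d : ℝ)
          ≤ ∑ d ∈ Icc 1 ⌊(N : ℝ) ^ θ⌋₊, ∑ j ∈ Icc 1 (JJ K N),
            ((X j d).card : ℝ) / (Nat.totient d : ℝ) := by
            refine sum_le_sum fun d _ => ?_
            rw [← sum_div]
            refine div_le_div_of_nonneg_right ?_ (Nat.cast_nonneg _)
            exact_mod_cast card_biUnion_le
        _ = ∑ j ∈ Icc 1 (JJ K N), ∑ d ∈ Icc 1 ⌊(N : ℝ) ^ θ⌋₊,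
            ((X j d).card : ℝ) / (Nat.totient d : ℝ) := sum_comm
        _ ≤ ∑ _j ∈ Icc 1 (JJ K N), C1 * L ^ B1 := sum_le_sum fun j hj => (hX j hj).2.1
        _ = (JJ K N : ℝ) * (C1 * L ^ B1) := by
            rw [sum_const, Nat.card_Icc, Nat.add_sub_cancel, nsmul_eq_mul]
        _ ≤ 2 * L ^ K * (C1 * L ^ B1) := by gcongr
        _ = 2 * C1 * (L ^ (K + B1) * 1) := by ring
        _ ≤ (2 * C1 + (N0 : ℝ) ^ 2) * (L ^ (K + B1) * L) := by
            gcongr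
            nlinarith [sq_nonneg (N0 : ℝ)]
        _ = _ := by rw [hL]; ring
    · refine hgrid N hNg _ l ?_ ?_
      · intro d hd
        have h4 := (mem_mo.1 (mem_filter.1 hd).1).1
        exact Icc_subset_Icc_right hMN h4
      · intro j hj
        refine le_trans ?_ ((hX j hj).2.2 l)
        have h4 : ∀ d, |H343E.piAP (gp N (JJ K N) j) d (l d) -
            H343E.pi1 (gp N (JJ K N) j) / (Nat.totient d : ℝ)| =
            |Er (gp N (JJ K N) j) d (l d)| := fun d => rfl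
        simp only [h4]
        refine sum_le_sum_of_subset_of_nonneg ?_ fun _ _ _ => abs_nonneg _
        intro d hd
        rw [mem_filter] at hd ⊢
        refine ⟨hd.1, hd.2.1, ?_, hd.2.2.2⟩
        intro hcon
        exact hd.2.2.1 (mem_biUnion.2 ⟨j, hj, hcon⟩)

end Pool.Agent.K9h59.MI
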